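import Mathlib

set_option autoImplicit false

open Module

namespace Pool.Agent.Helper85.SR

section Gelfand

variable {Γ H E : Type*} [Group Γ] [Fintype Γ] [Group H] [Fintype H]
  [AddCommGroup E] [Module ℂ E] [FiniteDimensional ℂ E]

/-- A Gelfand type criterion. -/
theorem gelfand (T : Representation ℂ Γ E) (δ : H →* Γ)
    (hschur : ∀ X : Module.End ℂ E, ∃ c : ℂ, ∑ γ : Γ, T γ * X * T γ⁻¹ = c • 1)
    (hinv : ∀ γ : Γ, ∃ k k' : H, γ⁻¹ = δ k * γ * δ k') :
    Module.finrank ℂ (Representation.invariants (T.comp δ)) ≤ 1 := by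
  classical
  have hcard : (Fintype.card H : ℂ) ≠ 0 := Nat.cast_ne_zero.mpr Fintype.card_ne_zero
  have hcardΓ : (Fintype.card Γ : ℂ) ≠ 0 := Nat.cast_ne_zero.mpr Fintype.card_ne_zero
  obtain ⟨P, hPdef⟩ : ∃ P : Module.End ℂ E,
      P = (Fintype.card H : ℂ)⁻¹ • ∑ k : H, T (δ k) := ⟨_, rfl⟩
  have hP1 : ∀ k : H, T (δ k) * P = P := by
    intro k
    rw [hPdef, mul_smul_comm, Finset.mul_sum]
    congr 1
    have : ∀ x : H, T (δ k) * T (δ x) = T (δ (k * x)) := fun x => by
      rw [map_mul, map_mul]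
    simp_rw [this]
    exact Fintype.sum_equiv (Equiv.mulLeft k) _ _ (fun x => rfl)
  have hP2 : ∀ k : H, P * T (δ k) = P := by
    intro k
    rw [hPdef, smul_mul_assoc, Finset.sum_mul]
    congr 1
    have : ∀ x : H, T (δ x) * T (δ k) = T (δ (x * k)) := fun x => by
      rw [map_mul, map_mul]
    simp_rw [this]
    exact Fintype.sum_equiv (Equiv.mulRight k) _ _ (fun x => rfl)
  have hPinv : ∀ v ∈ Representation.invariants (T.comp δ), P v = v := by
    intro v hv
    have hv' : ∀ k : H, T (δ k) v = v := fun k => hv k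
    rw [hPdef]
    simp only [LinearMap.smul_apply, LinearMap.sum_apply, hv', Finset.sum_const,
      Finset.card_univ]
    rw [← Nat.cast_smul_eq_nsmul ℂ, smul_smul, inv_mul_cancel₀ hcard, one_smul]
  have hPmem : ∀ v, P v ∈ Representation.invariants (T.comp δ) := by
    intro v k
    change T (δ k) (P v) = P v
    rw [← Module.End.mul_apply, hP1]
  have hPP : P * P = P := by
    ext v
    exact hPinv _ (hPmem v)
  have hproj : LinearMap.IsProj (Representation.invariants (T.comp δ)) P := ⟨hPmem, hPinv⟩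
  have htrP : LinearMap.trace ℂ E P = Module.finrank ℂ (Representation.invariants (T.comp δ)) :=
    hproj.trace
  -- The compressed operators.
  set A : Γ → Module.End ℂ E := fun γ => P * T γ * P with hAdef
  have hAinv : ∀ γ, A γ⁻¹ = A γ := by
    intro γ
    obtain ⟨k, k', h⟩ := hinv γ
    simp only [hAdef]
    rw [h, map_mul, map_mul]
    calc P * (T (δ k) * T γ * T (δ k')) * P = (P * T (δ k)) * T γ * (T (δ k') * P) := by
          simp only [mul_assoc]
      _ = P * T γ * P := by rw [hP2, hP1]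
  have hAmul : ∀ γ γ', A γ * A γ' = (Fintype.card H : ℂ)⁻¹ • ∑ k : H, A (γ * δ k * γ') := by
    intro γ γ'
    calc A γ * A γ' = P * T γ * (P * P) * T γ' * P := by simp only [hAdef, mul_assoc]
      _ = P * T γ * P * T γ' * P := by rw [hPP]
      _ = (Fintype.card H : ℂ)⁻¹ • ∑ k : H, A (γ * δ k * γ') := by
          conv_lhs => rw [mul_assoc P (T γ) P]
          rw [show T γ * P = (Fintype.card H : ℂ)⁻¹ • ∑ k : H, T γ * T (δ k) by
            rw [hPdef, mul_smul_comm, Finset.mul_sum]]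
          simp only [mul_smul_comm, smul_mul_assoc, Finset.mul_sum, Finset.sum_mul, hAdef,
            map_mul, mul_assoc]
  have hcomm : ∀ γ γ', A γ * A γ' = A γ' * A γ := by
    intro γ γ'
    calc A γ * A γ' = (Fintype.card H : ℂ)⁻¹ • ∑ k : H, A (γ * δ k * γ') := hAmul γ γ'
      _ = (Fintype.card H : ℂ)⁻¹ • ∑ k : H, A (γ'⁻¹ * δ k⁻¹ * γ⁻¹) := by
          congr 1
          refine Finset.sum_congr rfl fun k _ => ?_
          rw [← hAinv]
          congr 1
          simp [mul_assoc]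
      _ = (Fintype.card H : ℂ)⁻¹ • ∑ k : H, A (γ'⁻¹ * δ k * γ⁻¹) := by
          congr 1
          exact Fintype.sum_equiv (Equiv.inv H) _ _ (fun x => rfl)
      _ = A γ'⁻¹ * A γ⁻¹ := (hAmul γ'⁻¹ γ⁻¹).symm
      _ = A γ' * A γ := by rw [hAinv, hAinv]
  -- Schur averaging of compressed operators.
  have hS : ∀ X : Module.End ℂ E, P * X * P = X →
      ∃ c : ℂ, ∑ γ : Γ, A γ * X * A γ = c • P := by
    intro X hX
    obtain ⟨c, hc⟩ := hschur X
    refine ⟨c, ?_⟩
    have h1 : ∀ γ : Γ, A γ * X * A γ = P * (T γ * X * T γ⁻¹) * P := by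
      intro γ
      calc A γ * X * A γ = A γ * X * A γ⁻¹ := by rw [hAinv]
        _ = P * (T γ * (P * X * P) * T γ⁻¹) * P := by simp only [hAdef, mul_assoc]
        _ = _ := by rw [hX]
    simp_rw [h1]
    rw [← Finset.sum_mul, ← Finset.mul_sum, hc]
    rw [mul_smul_comm, mul_one, smul_mul_assoc, hPP]
  obtain ⟨cP, hcP⟩ := hschur P
  have hcP' : ∑ γ : Γ, A γ * A γ = cP • P := by
    have h1 : ∀ γ : Γ, A γ * A γ = P * (T γ * P * T γ⁻¹) * P := by
      intro γ
      calc A γ * A γ = A γ * A γ⁻¹ := by rw [hAinv]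
        _ = P * (T γ * (P * P) * T γ⁻¹) * P := by simp only [hAdef, mul_assoc]
        _ = _ := by rw [hPP]
    simp_rw [h1]
    rw [← Finset.sum_mul, ← Finset.mul_sum, hcP]
    rw [mul_smul_comm, mul_one, smul_mul_assoc, hPP]
  -- now the conclusion
  by_cases hN : Module.finrank ℂ (Representation.invariants (T.comp δ)) = 0
  · rw [hN]; exact Nat.zero_le _
  have hcP0 : cP ≠ 0 := by
    intro h0
    have htr := congrArg (LinearMap.trace ℂ E) hcP
    rw [h0, zero_smul, map_zero, map_sum] at htr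
    have h2 : ∀ γ : Γ, LinearMap.trace ℂ E (T γ * P * T γ⁻¹) = LinearMap.trace ℂ E P := by
      intro γ
      rw [LinearMap.trace_mul_comm, ← mul_assoc, ← map_mul, inv_mul_cancel, map_one, one_mul]
    simp_rw [h2] at htr
    rw [Finset.sum_const, Finset.card_univ, ← Nat.cast_smul_eq_nsmul ℂ, smul_eq_mul, htrP] at htr
    rcases mul_eq_zero.mp htr with h | h
    · exact hcardΓ h
    · exact hN (by exact_mod_cast h)
  have hPne : P ≠ 0 := by
    intro h0
    rw [h0, map_zero] at htrP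
    exact hN (by exact_mod_cast htrP.symm)
  have hAP : ∀ γ, A γ * P = A γ := fun γ => by
    simp only [hAdef]; rw [mul_assoc, hPP]
  have hPA : ∀ γ, P * A γ = A γ := fun γ => by
    simp only [hAdef]; rw [← mul_assoc, ← mul_assoc, hPP]
  have hscal : ∀ γ, ∃ a : ℂ, A γ = a • P := by
    intro γ
    obtain ⟨c, hc⟩ := hS (A γ) (by rw [hPA, hAP])
    have h1 : ∑ γ' : Γ, A γ' * A γ * A γ' = cP • A γ := by
      have : ∀ γ', A γ' * A γ * A γ' = A γ * (A γ' * A γ') := fun γ' => by
        rw [hcomm γ' γ, mul_assoc]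
      simp_rw [this]
      rw [← Finset.mul_sum, hcP', mul_smul_comm, hAP]
    refine ⟨cP⁻¹ * c, ?_⟩
    rw [h1] at hc
    rw [mul_smul, ← hc, smul_smul, inv_mul_cancel₀ hcP0, one_smul]
  choose a ha using hscal
  have hsum : ∑ γ : Γ, a γ * a γ = cP := by
    have h1 : (∑ γ : Γ, a γ * a γ) • P = cP • P := by
      rw [← hcP', Finset.sum_smul]
      refine Finset.sum_congr rfl fun γ _ => ?_
      rw [ha, smul_mul_smul_comm, hPP]
    exact smul_left_injective ℂ hPne h1
  have hX : ∀ X : Module.End ℂ E, P * X * P = X → ∃ c : ℂ, X = c • P := by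
    intro X hX
    obtain ⟨c, hc⟩ := hS X hX
    have h1 : ∀ γ : Γ, A γ * X * A γ = (a γ * a γ) • X := by
      intro γ
      rw [ha, smul_mul_assoc, smul_mul_assoc, mul_smul_comm, smul_smul, hX]
    simp_rw [h1] at hc
    rw [← Finset.sum_smul, hsum] at hc
    refine ⟨cP⁻¹ * c, ?_⟩
    rw [mul_smul, ← hc, smul_smul, inv_mul_cancel₀ hcP0, one_smul]
  have hpos : 0 < Module.finrank ℂ (Representation.invariants (T.comp δ)) :=
    Nat.pos_of_ne_zero hN
  have : Nontrivial (Representation.invariants (T.comp δ)) :=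
    Module.finrank_pos_iff.mp hpos
  obtain ⟨⟨n1, hn1⟩, hn1ne⟩ := exists_ne (0 : Representation.invariants (T.comp δ))
  have hn1' : n1 ≠ 0 := fun h => hn1ne (Subtype.ext h)
  have hφex : ∃ φ : Module.Dual ℂ E, φ n1 ≠ 0 := by
    by_contra hcon
    push Not at hcon
    exact hn1' ((Module.forall_dual_apply_eq_zero_iff ℂ n1).mp hcon)
  obtain ⟨φ, hφ⟩ := hφex
  refine finrank_le_one (⟨n1, hn1⟩ : Representation.invariants (T.comp δ)) ?_
  rintro ⟨n2, hn2⟩
  -- the rank one operator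
  obtain ⟨X, hXdef⟩ : ∃ X : Module.End ℂ E, ∀ v, X v = φ (P v) • n2 :=
    ⟨(φ.comp P).smulRight n2, fun v => rfl⟩
  have hPXP : P * X * P = X := by
    ext v
    rw [Module.End.mul_apply, Module.End.mul_apply, hXdef, hXdef, map_smul, hPinv n2 hn2,
      hPinv _ (hPmem v)]
  obtain ⟨c, hc⟩ := hX X hPXP
  refine ⟨(φ n1)⁻¹ * c, ?_⟩
  apply Subtype.ext
  change ((φ n1)⁻¹ * c) • n1 = n2
  have h1 : X n1 = φ n1 • n2 := by rw [hXdef, hPinv n1 hn1]
  have h2 : X n1 = c • n1 := by rw [hc, LinearMap.smul_apply, hPinv n1 hn1]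
  rw [mul_smul, ← h2, h1, smul_smul, inv_mul_cancel₀ hφ, one_smul]

end Gelfand

end Pool.Agent.Helper85.SR
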