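import Mathlib

set_option autoImplicit false

namespace Pool.Agent.Helper85.SR

noncomputable section

/-- The quaternion algebra `(-1, 3)` over the field of 3-adic numbers. -/
abbrev D : Type := QuaternionAlgebra ℚ_[3] (-1) 0 3

/-- The reduced norm. -/
def nrm (x : D) : ℚ_[3] := x.re ^ 2 + x.imI ^ 2 - 3 * (x.imJ ^ 2 + x.imK ^ 2)

theorem nrm_mul (x y : D) : nrm (x * y) = nrm x * nrm y := by
  simp only [nrm, QuaternionAlgebra.re_mul, QuaternionAlgebra.imI_mul, QuaternionAlgebra.imJ_mul,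
    QuaternionAlgebra.imK_mul]
  ring

theorem norm_sq_add_one (u : ℤ_[3]) : ‖u ^ 2 + 1‖ = 1 := by
  by_contra hne
  have hlt : ‖u ^ 2 + 1‖ < 1 := lt_of_le_of_ne (PadicInt.norm_le_one _) hne
  have hmem : u ^ 2 + 1 ∈ IsLocalRing.maximalIdeal ℤ_[3] := by
    rw [IsLocalRing.mem_maximalIdeal, PadicInt.mem_nonunits]
    exact hlt
  rw [← PadicInt.ker_toZMod, RingHom.mem_ker, map_add, map_pow, map_one] at hmem
  generalize PadicInt.toZMod u = v at hmem
  revert hmem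
  revert v
  decide

theorem norm_sq_add_sq_of_le (a b : ℚ_[3]) (h : ‖a‖ ≤ ‖b‖) : ‖a ^ 2 + b ^ 2‖ = ‖b‖ ^ 2 := by
  by_cases hb : b = 0
  · subst hb
    rw [norm_zero] at h
    have ha : a = 0 := norm_le_zero_iff.mp h
    subst ha
    simp
  · have hbn : ‖b‖ ≠ 0 := norm_ne_zero_iff.mpr hb
    have hu : ‖a / b‖ ≤ 1 := by
      rw [norm_div]
      exact div_le_one_of_le₀ h (norm_nonneg _)
    have h1 := norm_sq_add_one ⟨a / b, hu⟩
    have h2 : ‖(a / b) ^ 2 + 1‖ = 1 := by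
      rw [← h1, PadicInt.norm_def]
      rfl
    have h3 : a ^ 2 + b ^ 2 = b ^ 2 * ((a / b) ^ 2 + 1) := by
      field_simp
    rw [h3, norm_mul, h2, mul_one, norm_pow]

theorem norm_sq_add_sq (a b : ℚ_[3]) : ‖a ^ 2 + b ^ 2‖ = (max ‖a‖ ‖b‖) ^ 2 := by
  rcases le_total ‖a‖ ‖b‖ with h | h
  · rw [max_eq_right h, norm_sq_add_sq_of_le a b h]
  · rw [max_eq_left h, add_comm, norm_sq_add_sq_of_le b a h]

theorem norm_three : ‖(3 : ℚ_[3])‖ = 1 / 3 := by
  have h := Padic.norm_p (p := 3)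
  norm_num at h ⊢
  exact h

/-- The value `‖a‖` is zero or an integral power of three. -/
theorem norm_cases (a : ℚ_[3]) : ‖a‖ = 0 ∨ ∃ n : ℤ, ‖a‖ = (3 : ℝ) ^ n := by
  by_cases ha : a = 0
  · left; rw [ha, norm_zero]
  · right
    exact ⟨-a.valuation, by rw [Padic.norm_eq_zpow_neg_valuation ha]; norm_num⟩

theorem max_cases' (a b : ℚ_[3]) :
    max ‖a‖ ‖b‖ = 0 ∨ ∃ n : ℤ, max ‖a‖ ‖b‖ = (3 : ℝ) ^ n := by
  rcases max_choice ‖a‖ ‖b‖ with h | h <;> rw [h] <;> exact norm_cases _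

/-- The absolute value on `D`. -/
def nu (x : D) : ℝ := ‖nrm x‖

theorem nu_eq (x : D) :
    nu x = max ((max ‖x.re‖ ‖x.imI‖) ^ 2) ((max ‖x.imJ‖ ‖x.imK‖) ^ 2 / 3) := by
  unfold nu nrm
  have h1 := norm_sq_add_sq x.re x.imI
  have h2 : ‖3 * (x.imJ ^ 2 + x.imK ^ 2)‖ = (max ‖x.imJ‖ ‖x.imK‖) ^ 2 / 3 := by
    rw [norm_mul, norm_three, norm_sq_add_sq]; ring
  rw [← h1, ← h2]
  have hne : ‖x.re ^ 2 + x.imI ^ 2‖ ≠ ‖3 * (x.imJ ^ 2 + x.imK ^ 2)‖ ∨
      (‖x.re ^ 2 + x.imI ^ 2‖ = 0 ∧ ‖3 * (x.imJ ^ 2 + x.imK ^ 2)‖ = 0) := by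
    rw [h1, h2]
    rcases max_cases' x.re x.imI with ha | ⟨n, ha⟩ <;>
      rcases max_cases' x.imJ x.imK with hb | ⟨m, hb⟩
    · right; rw [ha, hb]; norm_num
    · left; rw [ha, hb]
      have : (0 : ℝ) < 3 ^ m := by positivity
      intro h
      have h' : (0 : ℝ) = (3 ^ m) ^ 2 / 3 := by simpa using h
      have : (0 : ℝ) < (3 ^ m) ^ 2 / 3 := by positivity
      linarith
    · left; rw [ha, hb]
      intro h
      have h' : ((3 : ℝ) ^ n) ^ 2 = 0 := by simpa using h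
      have : (0 : ℝ) < (3 ^ n) ^ 2 := by positivity
      linarith
    · left; rw [ha, hb]
      intro h
      have h3 : ((3 : ℝ) ^ n) ^ 2 = (3 : ℝ) ^ (2 * n) := by
        rw [← zpow_natCast, ← zpow_mul]; congr 1; push_cast; ring
      have h4 : ((3 : ℝ) ^ m) ^ 2 / 3 = (3 : ℝ) ^ (2 * m - 1) := by
        rw [← zpow_natCast, ← zpow_mul, zpow_sub₀ (by norm_num), zpow_one]
        congr 2; push_cast; ring
      rw [h3, h4] at h
      have h5 : 2 * n = 2 * m - 1 := zpow_right_injective₀ (by norm_num) (by norm_num) h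
      omega
  rcases hne with hne | ⟨h3, h4⟩
  · rw [sub_eq_add_neg]
    have := IsUltrametricDist.norm_add_eq_max_of_norm_ne_norm
      (x := x.re ^ 2 + x.imI ^ 2) (y := -(3 * (x.imJ ^ 2 + x.imK ^ 2))) (by rwa [norm_neg])
    rw [this, norm_neg]
  · rw [h3, h4]
    rw [norm_eq_zero] at h3 h4
    rw [h3, h4]; simp

theorem max_sq_le_iff {a b r : ℝ} (ha : 0 ≤ a) (hb : 0 ≤ b) :
    (max a b) ^ 2 ≤ r ↔ a ^ 2 ≤ r ∧ b ^ 2 ≤ r := by
  rcases le_total a b with h | h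
  · rw [max_eq_right h]
    constructor
    · intro h2
      exact ⟨le_trans (pow_le_pow_left₀ ha h 2) h2, h2⟩
    · exact fun h2 => h2.2
  · rw [max_eq_left h]
    constructor
    · intro h2
      exact ⟨h2, le_trans (pow_le_pow_left₀ hb h 2) h2⟩
    · exact fun h2 => h2.1

theorem nu_le_iff {x : D} {r : ℝ} :
    nu x ≤ r ↔ ‖x.re‖ ^ 2 ≤ r ∧ ‖x.imI‖ ^ 2 ≤ r ∧ ‖x.imJ‖ ^ 2 ≤ 3 * r ∧ ‖x.imK‖ ^ 2 ≤ 3 * r := by
  rw [nu_eq, max_le_iff, max_sq_le_iff (norm_nonneg _) (norm_nonneg _), div_le_iff₀ (by norm_num),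
    max_sq_le_iff (norm_nonneg _) (norm_nonneg _), mul_comm r 3]
  tauto

theorem nu_nonneg (x : D) : 0 ≤ nu x := norm_nonneg _

theorem nu_mul (x y : D) : nu (x * y) = nu x * nu y := by
  unfold nu; rw [nrm_mul, norm_mul]

theorem nu_coe (c : ℚ_[3]) : nu (c : D) = ‖c‖ ^ 2 := by
  unfold nu nrm
  simp

theorem nu_one : nu 1 = 1 := by
  have := nu_coe 1
  simpa using this

theorem nu_zero : nu 0 = 0 := by
  have := nu_coe 0
  simpa using this

theorem nu_neg (x : D) : nu (-x) = nu x := by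
  unfold nu nrm; simp

theorem sq_norm_add_le {a b : ℚ_[3]} {r : ℝ} (ha : ‖a‖ ^ 2 ≤ r) (hb : ‖b‖ ^ 2 ≤ r) :
    ‖a + b‖ ^ 2 ≤ r := by
  have h := Padic.nonarchimedean a b
  refine le_trans (pow_le_pow_left₀ (norm_nonneg _) h 2) ?_
  rw [max_sq_le_iff (norm_nonneg _) (norm_nonneg _)]
  exact ⟨ha, hb⟩

theorem nu_add_le_of_le {x y : D} {r : ℝ} (hx : nu x ≤ r) (hy : nu y ≤ r) : nu (x + y) ≤ r := by
  rw [nu_le_iff] at *
  obtain ⟨h1, h2, h3, h4⟩ := hx
  obtain ⟨k1, k2, k3, k4⟩ := hy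
  exact ⟨sq_norm_add_le h1 k1, sq_norm_add_le h2 k2, sq_norm_add_le h3 k3, sq_norm_add_le h4 k4⟩

theorem nu_sub_le_of_le {x y : D} {r : ℝ} (hx : nu x ≤ r) (hy : nu y ≤ r) : nu (x - y) ≤ r := by
  rw [sub_eq_add_neg]
  exact nu_add_le_of_le hx (by rwa [nu_neg])

theorem nu_add_lt_of_lt {x y : D} {r : ℝ} (hx : nu x < r) (hy : nu y < r) : nu (x + y) < r :=
  lt_of_le_of_lt (nu_add_le_of_le (le_max_left _ _) (le_max_right _ _)) (max_lt hx hy)

theorem nu_sub_lt_of_lt {x y : D} {r : ℝ} (hx : nu x < r) (hy : nu y < r) : nu (x - y) < r := by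
  rw [sub_eq_add_neg]
  exact nu_add_lt_of_lt hx (by rwa [nu_neg])

theorem nu_sub_comm (x y : D) : nu (x - y) = nu (y - x) := by
  rw [← nu_neg, neg_sub]

theorem nu_eq_zero {x : D} : nu x = 0 ↔ x = 0 := by
  constructor
  · intro h
    have h1 := (nu_le_iff (x := x) (r := 0)).mp h.le
    obtain ⟨h1, h2, h3, h4⟩ := h1
    rw [mul_zero] at h3 h4
    have key : ∀ a : ℚ_[3], ‖a‖ ^ 2 ≤ 0 → a = 0 := by
      intro a ha
      have : ‖a‖ ^ 2 = 0 := le_antisymm ha (by positivity)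
      exact norm_eq_zero.mp (pow_eq_zero_iff (two_ne_zero) |>.mp this)
    ext
    · exact key _ h1
    · exact key _ h2
    · exact key _ h3
    · exact key _ h4
  · rintro rfl
    exact nu_zero

theorem nu_eq_of_sub_lt {x y : D} (h : nu (x - y) < nu y) : nu x = nu y := by
  apply le_antisymm
  · have : x = (x - y) + y := by abel
    rw [this]
    exact nu_add_le_of_le h.le le_rfl
  · by_contra hcon
    push Not at hcon
    have : nu y < nu y := by
      calc nu y = nu (x - (x - y)) := by congr 1; abel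
        _ < nu y := nu_sub_lt_of_lt hcon h
    exact lt_irrefl _ this

theorem nrm_ne_zero {x : D} (hx : x ≠ 0) : nrm x ≠ 0 := by
  intro h
  apply hx
  rw [← nu_eq_zero]
  unfold nu
  rw [h, norm_zero]

theorem mul_star_eq (x : D) : x * star x = (nrm x : D) := by
  ext <;> simp only [QuaternionAlgebra.re_mul, QuaternionAlgebra.imI_mul,
    QuaternionAlgebra.imJ_mul, QuaternionAlgebra.imK_mul, QuaternionAlgebra.re_star,
    QuaternionAlgebra.imI_star, QuaternionAlgebra.imJ_star, QuaternionAlgebra.imK_star,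
    QuaternionAlgebra.re_coe, QuaternionAlgebra.imI_coe, QuaternionAlgebra.imJ_coe,
    QuaternionAlgebra.imK_coe, nrm] <;> ring

theorem star_mul_eq (x : D) : star x * x = (nrm x : D) := by
  ext <;> simp only [QuaternionAlgebra.re_mul, QuaternionAlgebra.imI_mul,
    QuaternionAlgebra.imJ_mul, QuaternionAlgebra.imK_mul, QuaternionAlgebra.re_star,
    QuaternionAlgebra.imI_star, QuaternionAlgebra.imJ_star, QuaternionAlgebra.imK_star,
    QuaternionAlgebra.re_coe, QuaternionAlgebra.imI_coe, QuaternionAlgebra.imJ_coe,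
    QuaternionAlgebra.imK_coe, nrm] <;> ring

/-- Every nonzero element is a unit. -/
def mkUnit (x : D) (hx : x ≠ 0) : Dˣ where
  val := x
  inv := (((nrm x)⁻¹ : ℚ_[3]) : D) * star x
  val_inv := by
    have h := nrm_ne_zero hx
    have h1 : x * ((((nrm x)⁻¹ : ℚ_[3]) : D) * star x) = (((nrm x)⁻¹ : ℚ_[3]) : D) * (x * star x) := by
      rw [← mul_assoc, ← mul_assoc, ← (QuaternionAlgebra.coe_commutes _ x)]
    rw [h1, mul_star_eq, ← QuaternionAlgebra.coe_mul, inv_mul_cancel₀ h, QuaternionAlgebra.coe_one]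
  inv_val := by
    have h := nrm_ne_zero hx
    rw [mul_assoc, star_mul_eq, ← QuaternionAlgebra.coe_mul, inv_mul_cancel₀ h,
      QuaternionAlgebra.coe_one]

theorem exists_unit {x : D} (hx : x ≠ 0) : ∃ u : Dˣ, (u : D) = x := ⟨mkUnit x hx, rfl⟩

theorem nu_pos (u : Dˣ) : 0 < nu (u : D) := by
  refine lt_of_le_of_ne (nu_nonneg _) (Ne.symm ?_)
  intro h
  exact u.ne_zero (nu_eq_zero.mp h)

theorem nu_inv (u : Dˣ) : nu ((u⁻¹ : Dˣ) : D) = (nu (u : D))⁻¹ := by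
  have h : nu ((u⁻¹ : Dˣ) : D) * nu (u : D) = 1 := by
    rw [← nu_mul, Units.inv_mul, nu_one]
  exact eq_inv_of_mul_eq_one_left h

end

end Pool.Agent.Helper85.SR
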