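import Mathlib
import Pool.Agent.Helper85.QuatNorm

set_option autoImplicit false

namespace Pool.Agent.Helper85.SR

noncomputable section

/-- Any two elements are simultaneously conjugated to their quaternion conjugates. -/
theorem exists_inverter (x y : D) :
    ∃ g : D, g ≠ 0 ∧ g * x = star x * g ∧ g * y = star y * g := by
  let M : Matrix (Fin 2) (Fin 3) ℚ_[3] :=
    !![-x.imI, 3 * x.imJ, 3 * x.imK; -y.imI, 3 * y.imJ, 3 * y.imK]
  have hker : LinearMap.ker M.mulVecLin ≠ ⊥ := by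
    apply LinearMap.ker_ne_bot_of_finrank_lt
    simp
  obtain ⟨v, hv, hv0⟩ := Submodule.exists_mem_ne_zero_of_ne_bot hker
  rw [LinearMap.mem_ker, Matrix.mulVecLin_apply] at hv
  have h0 := congrFun hv 0
  have h1 := congrFun hv 1
  simp [M, Matrix.mulVec, dotProduct, Fin.sum_univ_three] at h0 h1
  refine ⟨⟨0, v 0, v 1, v 2⟩, ?_, ?_, ?_⟩
  · intro h
    apply hv0
    have e1 := congrArg QuaternionAlgebra.imI h
    have e2 := congrArg QuaternionAlgebra.imJ h
    have e3 := congrArg QuaternionAlgebra.imK h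
    ext i
    fin_cases i
    · exact e1
    · exact e2
    · exact e3
  · ext <;> simp only [QuaternionAlgebra.re_mul, QuaternionAlgebra.imI_mul,
      QuaternionAlgebra.imJ_mul, QuaternionAlgebra.imK_mul, QuaternionAlgebra.re_star,
      QuaternionAlgebra.imI_star, QuaternionAlgebra.imJ_star, QuaternionAlgebra.imK_star]
    · linear_combination 2 * h0
    · ring
    · ring
    · ring
  · ext <;> simp only [QuaternionAlgebra.re_mul, QuaternionAlgebra.imI_mul,
      QuaternionAlgebra.imJ_mul, QuaternionAlgebra.imK_mul, QuaternionAlgebra.re_star,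
      QuaternionAlgebra.imI_star, QuaternionAlgebra.imJ_star, QuaternionAlgebra.imK_star]
    · linear_combination 2 * h1
    · ring
    · ring
    · ring

theorem coe_comm (c : ℚ_[3]) (x : D) : (c : D) * x = x * c := QuaternionAlgebra.coe_commutes c x

/-- The parameter `3^{-(n+1)}`. -/
def eps (n : ℕ) : ℝ := (1 / 3) ^ (n + 1)

theorem eps_pos (n : ℕ) : 0 < eps n := by unfold eps; positivity

theorem eps_lt_one (n : ℕ) : eps n < 1 := pow_lt_one₀ (by norm_num) (by norm_num) (by omega)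

theorem nu_scalar_eq {x : D} {c : ℚ_[3]} {ε : ℝ} (hε : ε < 1) (hx : 0 < nu x)
    (h : nu (x - c) ≤ ε * nu x) : nu (c : D) = nu x := by
  apply nu_eq_of_sub_lt
  rw [nu_sub_comm]
  calc nu (x - c) ≤ ε * nu x := h
    _ < 1 * nu x := by gcongr
    _ = nu x := one_mul _

/-- The open normal subgroup `K^*(1 + P^{n+1})`. -/
def U (n : ℕ) : Subgroup Dˣ where
  carrier := {u | ∃ c : ℚ_[3], nu ((u : D) - c) ≤ eps n * nu (u : D)}
  one_mem' := by
    refine ⟨1, ?_⟩
    have : ((1 : Dˣ) : D) - ((1 : ℚ_[3]) : D) = 0 := by simp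
    rw [this, nu_zero]
    exact mul_nonneg (eps_pos n).le (nu_nonneg _)
  mul_mem' := by
    rintro x y ⟨c, hc⟩ ⟨d, hd⟩
    refine ⟨c * d, ?_⟩
    have hcx := nu_scalar_eq (eps_lt_one n) (nu_pos x) hc
    have e : ((x * y : Dˣ) : D) - ((c * d : ℚ_[3]) : D)
        = ((x : D) - c) * y + c * ((y : D) - d) := by
      rw [Units.val_mul, QuaternionAlgebra.coe_mul]
      noncomm_ring
    rw [e, Units.val_mul, nu_mul]
    apply nu_add_le_of_le
    · rw [nu_mul, ← mul_assoc]
      exact mul_le_mul_of_nonneg_right hc (nu_nonneg _)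
    · rw [nu_mul, hcx]
      calc nu (x : D) * nu ((y : D) - d) ≤ nu (x : D) * (eps n * nu (y : D)) :=
            mul_le_mul_of_nonneg_left hd (nu_nonneg _)
        _ = eps n * (nu (x : D) * nu (y : D)) := by ring
  inv_mem' := by
    rintro x ⟨c, hc⟩
    have hcx := nu_scalar_eq (eps_lt_one n) (nu_pos x) hc
    have hc0 : c ≠ 0 := by
      rintro rfl
      have := nu_pos x
      rw [← hcx, QuaternionAlgebra.coe_zero, nu_zero] at this
      exact lt_irrefl _ this
    refine ⟨c⁻¹, ?_⟩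
    have e : ((x⁻¹ : Dˣ) : D) - ((c⁻¹ : ℚ_[3]) : D)
        = -(((x⁻¹ : Dˣ) : D) * ((x : D) - c) * ((c⁻¹ : ℚ_[3]) : D)) := by
      rw [mul_sub, sub_mul, Units.inv_mul, mul_assoc, ← QuaternionAlgebra.coe_mul,
        mul_inv_cancel₀ hc0, QuaternionAlgebra.coe_one]
      noncomm_ring
    have hnc : nu (((c⁻¹ : ℚ_[3]) : D)) = (nu (x : D))⁻¹ := by
      rw [nu_coe, norm_inv, inv_pow, ← nu_coe, hcx]
    rw [e, nu_neg, nu_mul, nu_mul, hnc, nu_inv]
    have hpos := nu_pos x
    calc (nu (x : D))⁻¹ * nu ((x : D) - c) * (nu (x : D))⁻¹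
        ≤ (nu (x : D))⁻¹ * (eps n * nu (x : D)) * (nu (x : D))⁻¹ := by gcongr
      _ = eps n * (nu (x : D))⁻¹ := by field_simp

theorem mem_U {n : ℕ} {u : Dˣ} :
    u ∈ U n ↔ ∃ c : ℚ_[3], nu ((u : D) - c) ≤ eps n * nu (u : D) := Iff.rfl

instance U_normal (n : ℕ) : (U n).Normal where
  conj_mem := by
    rintro x ⟨c, hc⟩ g
    refine ⟨c, ?_⟩
    have e : ((g * x * g⁻¹ : Dˣ) : D) - (c : D) = (g : D) * ((x : D) - c) * ((g⁻¹ : Dˣ) : D) := by
      rw [Units.val_mul, Units.val_mul, mul_sub, sub_mul, ← coe_comm, mul_assoc (c : D),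
        Units.mul_inv, mul_one]
    have hg : nu (g : D) ≠ 0 := (nu_pos g).ne'
    rw [e, Units.val_mul, Units.val_mul, nu_mul, nu_mul, nu_mul, nu_mul, nu_inv]
    calc nu (g : D) * nu ((x : D) - c) * (nu (g : D))⁻¹ = nu ((x : D) - c) := by
          field_simp
      _ ≤ eps n * nu (x : D) := hc
      _ = eps n * (nu (g : D) * nu (x : D) * (nu (g : D))⁻¹) := by field_simp

/-- The quotient groups. -/
abbrev Gq (n : ℕ) : Type := Dˣ ⧸ U n

theorem scalar_mem_U (n : ℕ) (u : Dˣ) (c : ℚ_[3]) (h : (u : D) = c) : u ∈ U n := by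
  refine ⟨c, ?_⟩
  rw [h, sub_self, nu_zero]
  exact mul_nonneg (eps_pos n).le (nu_nonneg _)

theorem pair_inversion (n : ℕ) (x y : Gq n) :
    ∃ g : Gq n, g * x * g⁻¹ = x⁻¹ ∧ g * y * g⁻¹ = y⁻¹ := by
  obtain ⟨x, rfl⟩ := QuotientGroup.mk'_surjective (U n) x
  obtain ⟨y, rfl⟩ := QuotientGroup.mk'_surjective (U n) y
  obtain ⟨g, hg0, hgx, hgy⟩ := exists_inverter (x : D) (y : D)
  obtain ⟨g, rfl⟩ := exists_unit hg0
  have key : ∀ x : Dˣ, (g : D) * x = star (x : D) * g →
      (QuotientGroup.mk' (U n) g) * (QuotientGroup.mk' (U n) x) * (QuotientGroup.mk' (U n) g)⁻¹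
        = (QuotientGroup.mk' (U n) x)⁻¹ := by
    intro x hx
    rw [eq_inv_iff_mul_eq_one, ← map_inv, ← map_mul, ← map_mul, ← map_mul]
    refine (QuotientGroup.eq_one_iff _).mpr ?_
    apply scalar_mem_U n _ (nrm (x : D))
    rw [Units.val_mul, Units.val_mul, Units.val_mul, hx, mul_assoc (star (x : D)),
      Units.mul_inv, mul_one, star_mul_eq]
  exact ⟨QuotientGroup.mk' (U n) g, key x hgx, key y hgy⟩

end

end Pool.Agent.Helper85.SR
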