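import Mathlib
import Pool.Agent.Helper85.QuatGroup

set_option autoImplicit false

namespace Pool.Agent.Helper85.SR

noncomputable section

theorem close_of_toZModPow {N : ℕ} {a b : ℤ_[3]}
    (h : PadicInt.toZModPow N a = PadicInt.toZModPow N b) :
    ‖(a : ℚ_[3]) - b‖ ≤ (1 / 3) ^ N := by
  have h1 : a - b ∈ RingHom.ker (PadicInt.toZModPow (p := 3) N) := by
    rw [RingHom.mem_ker, map_sub, h, sub_self]
  rw [PadicInt.ker_toZModPow, ← PadicInt.norm_le_pow_iff_mem_span_pow] at h1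
  have h2 : ‖(a : ℚ_[3]) - b‖ = ‖a - b‖ := by
    rw [PadicInt.norm_def]; rfl
  rw [h2]
  refine h1.trans (le_of_eq ?_)
  rw [zpow_neg, zpow_natCast, one_div, inv_pow]
  norm_num

theorem norm_le_one_of_sq_le_three {a : ℚ_[3]} (h : ‖a‖ ^ 2 ≤ 3) : ‖a‖ ≤ 1 := by
  rcases norm_cases a with h0 | ⟨n, hn⟩
  · rw [h0]; norm_num
  · rw [hn] at h ⊢
    by_contra hcon
    push Not at hcon
    have hn1 : 1 ≤ n := by
      by_contra hlt
      have : n ≤ 0 := by omega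
      have := zpow_le_zpow_right₀ (a := (3 : ℝ)) (by norm_num) this
      rw [zpow_zero] at this
      linarith
    have h3 := zpow_le_zpow_right₀ (a := (3 : ℝ)) (by norm_num) hn1
    rw [zpow_one] at h3
    nlinarith

theorem coords_le_one {z : D} (h : nu z ≤ 1) :
    ‖z.re‖ ≤ 1 ∧ ‖z.imI‖ ≤ 1 ∧ ‖z.imJ‖ ≤ 1 ∧ ‖z.imK‖ ≤ 1 := by
  rw [nu_le_iff] at h
  obtain ⟨h1, h2, h3, h4⟩ := h
  exact ⟨norm_le_one_of_sq_le_three (by linarith), norm_le_one_of_sq_le_three (by linarith),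
    norm_le_one_of_sq_le_three (by linarith), norm_le_one_of_sq_le_three (by linarith)⟩

theorem exists_scale (u : Dˣ) :
    ∃ s : ℚ_[3], s ≠ 0 ∧ 1 / 3 ≤ nu ((s : D) * u) ∧ nu ((s : D) * u) ≤ 1 := by
  have hne : nrm (u : D) ≠ 0 := nrm_ne_zero u.ne_zero
  have hk : nu (u : D) = (3 : ℝ) ^ (-(nrm (u : D)).valuation) := by
    unfold nu
    rw [Padic.norm_eq_zpow_neg_valuation hne]
    norm_num
  generalize -(nrm (u : D)).valuation = k at hk
  have h3 : ‖(3 : ℚ_[3]) ^ ((k + 1) / 2)‖ = (3 : ℝ) ^ (-((k + 1) / 2)) := by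
    have := Padic.norm_p_zpow (p := 3) ((k + 1) / 2)
    exact_mod_cast this
  have h4 : nu ((((3 : ℚ_[3]) ^ ((k + 1) / 2) : ℚ_[3]) : D) * u)
      = (3 : ℝ) ^ (k - 2 * ((k + 1) / 2)) := by
    rw [nu_mul, nu_coe, h3, hk, ← zpow_natCast, ← zpow_mul, ← zpow_add₀ (by norm_num)]
    congr 1
    push_cast
    ring
  refine ⟨(3 : ℚ_[3]) ^ ((k + 1) / 2), zpow_ne_zero _ (by norm_num), ?_, ?_⟩
  · rw [h4]
    have : (-1 : ℤ) ≤ k - 2 * ((k + 1) / 2) := by omega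
    have := zpow_le_zpow_right₀ (a := (3 : ℝ)) (by norm_num) this
    rw [zpow_neg_one] at this
    linarith
  · rw [h4]
    have : k - 2 * ((k + 1) / 2) ≤ 0 := by omega
    have := zpow_le_zpow_right₀ (a := (3 : ℝ)) (by norm_num) this
    rw [zpow_zero] at this
    exact this

/-- Reduction of an integral element modulo `3^N`. -/
def red (N : ℕ) (z : D) (h : nu z ≤ 1) :
    ZMod (3 ^ N) × ZMod (3 ^ N) × ZMod (3 ^ N) × ZMod (3 ^ N) :=
  (PadicInt.toZModPow N ⟨z.re, (coords_le_one h).1⟩,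
    PadicInt.toZModPow N ⟨z.imI, (coords_le_one h).2.1⟩,
    PadicInt.toZModPow N ⟨z.imJ, (coords_le_one h).2.2.1⟩,
    PadicInt.toZModPow N ⟨z.imK, (coords_le_one h).2.2.2⟩)

theorem nu_sub_le_of_red {N : ℕ} {z w : D} {hz : nu z ≤ 1} {hw : nu w ≤ 1}
    (h : red N z hz = red N w hw) : nu (z - w) ≤ (1 / 3) ^ N := by
  unfold red at h
  simp only [Prod.mk.injEq] at h
  obtain ⟨h1, h2, h3, h4⟩ := h
  have k1 := close_of_toZModPow h1
  have k2 := close_of_toZModPow h2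
  have k3 := close_of_toZModPow h3
  have k4 := close_of_toZModPow h4
  have hpow : (0 : ℝ) < (1 / 3) ^ N := by positivity
  have hpow1 : ((1 : ℝ) / 3) ^ N ≤ 1 := pow_le_one₀ (by norm_num) (by norm_num)
  have key : ∀ a : ℚ_[3], ‖a‖ ≤ (1 / 3) ^ N → ‖a‖ ^ 2 ≤ (1 / 3) ^ N := by
    intro a ha
    have := norm_nonneg a
    nlinarith
  rw [nu_le_iff]
  simp only [QuaternionAlgebra.re_sub, QuaternionAlgebra.imI_sub, QuaternionAlgebra.imJ_sub,
    QuaternionAlgebra.imK_sub]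
  refine ⟨key _ k1, key _ k2, (key _ k3).trans ?_, (key _ k4).trans ?_⟩ <;> linarith

theorem inv_mul_mem_U_of_close (n : ℕ) (u v : Dˣ) (s t : ℚ_[3]) (hs : s ≠ 0)
    (hsu : 1 / 3 ≤ nu ((s : D) * u))
    (h : nu ((s : D) * u - (t : D) * v) ≤ (1 / 3) ^ (n + 2)) : v⁻¹ * u ∈ U n := by
  refine ⟨s⁻¹ * t, ?_⟩
  have hns : 0 < nu (s : D) := by
    rw [nu_coe]; have := norm_pos_iff.mpr hs; positivity
  have e : ((v⁻¹ * u : Dˣ) : D) - ((s⁻¹ * t : ℚ_[3]) : D)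
      = ((s⁻¹ : ℚ_[3]) : D) * (((v⁻¹ : Dˣ) : D) * ((s : D) * u - (t : D) * v)) := by
    have h1 : ((v⁻¹ : Dˣ) : D) * ((s : D) * u) = (s : D) * (((v⁻¹ : Dˣ) : D) * u) := by
      rw [← mul_assoc, ← coe_comm, mul_assoc]
    have h2 : ((v⁻¹ : Dˣ) : D) * ((t : D) * v) = (t : D) := by
      rw [← mul_assoc, ← coe_comm, mul_assoc, Units.inv_mul, mul_one]
    rw [mul_sub (((v⁻¹ : Dˣ) : D)), h1, h2, mul_sub, ← mul_assoc, ← QuaternionAlgebra.coe_mul,
      inv_mul_cancel₀ hs, QuaternionAlgebra.coe_one, one_mul, ← QuaternionAlgebra.coe_mul,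
      Units.val_mul]
  have hnsinv : nu ((s⁻¹ : ℚ_[3]) : D) = (nu (s : D))⁻¹ := by
    rw [nu_coe, nu_coe, norm_inv, inv_pow]
  have hv := nu_pos v
  have hu := nu_pos u
  rw [e, nu_mul, nu_mul, hnsinv, nu_inv, Units.val_mul, nu_mul, nu_inv]
  rw [nu_mul] at hsu
  have h3 : eps n * (1 / 3) = (1 / 3) ^ (n + 2) := by
    unfold eps; rw [← pow_succ]
  have h4 : nu ((s : D) * u - (t : D) * v) ≤ eps n * (nu (s : D) * nu (u : D)) := by
    calc nu ((s : D) * u - (t : D) * v) ≤ (1 / 3) ^ (n + 2) := h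
      _ = eps n * (1 / 3) := h3.symm
      _ ≤ eps n * (nu (s : D) * nu (u : D)) := by
          have := eps_pos n
          gcongr
  calc (nu (s : D))⁻¹ * ((nu (v : D))⁻¹ * nu ((s : D) * u - (t : D) * v))
      ≤ (nu (s : D))⁻¹ * ((nu (v : D))⁻¹ * (eps n * (nu (s : D) * nu (u : D)))) := by gcongr
    _ = eps n * ((nu (v : D))⁻¹ * nu (u : D)) := by field_simp

instance Gq_finite (n : ℕ) : Finite (Gq n) := by
  choose s hs0 hs1 hs2 using exists_scale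
  have : NeZero (3 ^ (n + 2)) := ⟨by positivity⟩
  let F : Gq n → ZMod (3 ^ (n + 2)) × ZMod (3 ^ (n + 2)) × ZMod (3 ^ (n + 2)) ×
      ZMod (3 ^ (n + 2)) := fun q => red (n + 2) ((s q.out : D) * q.out) (hs2 q.out)
  apply Finite.of_injective F
  intro a b hab
  have h1 := nu_sub_le_of_red hab
  have h2 := inv_mul_mem_U_of_close n a.out b.out (s a.out) (s b.out) (hs0 _) (hs1 _) h1
  have h3 : (QuotientGroup.mk (b.out) : Gq n) = QuotientGroup.mk (a.out) :=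
    QuotientGroup.eq.mpr h2
  rw [QuotientGroup.out_eq', QuotientGroup.out_eq'] at h3
  exact h3.symm

end

end Pool.Agent.Helper85.SR
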