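import Mathlib
import Pool.Agent.Helper85.QuatFinite

set_option autoImplicit false

open scoped commutatorElement

namespace Pool.Agent.Helper85.SR

noncomputable section

theorem commutator_sub_one (x y : Dˣ) :
    ((⁅x, y⁆ : Dˣ) : D) - 1 = ((x : D) * y - (y : D) * x) * (((x⁻¹ : Dˣ) : D) * ((y⁻¹ : Dˣ) : D)) := by
  rw [commutatorElement_def, sub_mul, Units.val_mul, Units.val_mul, Units.val_mul]
  congr 1
  · rw [← mul_assoc]
  · rw [mul_assoc (y : D), ← mul_assoc (x : D), Units.mul_inv, one_mul, Units.mul_inv]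

theorem nu_commutator_sub_one (x y : Dˣ) :
    nu (((⁅x, y⁆ : Dˣ) : D) - 1)
      = nu ((x : D) * y - (y : D) * x) * ((nu (x : D))⁻¹ * (nu (y : D))⁻¹) := by
  rw [commutator_sub_one, nu_mul, nu_mul, nu_inv, nu_inv]

theorem nu_comm_le {x y : D} (hx : nu x ≤ 1) (hy : nu y ≤ 1) : nu (x * y - y * x) ≤ 1 / 3 := by
  obtain ⟨x1, x2, x3, x4⟩ := coords_le_one hx
  obtain ⟨y1, y2, y3, y4⟩ := coords_le_one hy
  have hm : ∀ a b : ℚ_[3], ‖a‖ ≤ 1 → ‖b‖ ≤ 1 → ‖a * b‖ ≤ 1 := by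
    intro a b ha hb
    rw [norm_mul]
    exact mul_le_one₀ ha (norm_nonneg _) hb
  have hs : ∀ a b : ℚ_[3], ‖a‖ ≤ 1 → ‖b‖ ≤ 1 → ‖a + b‖ ≤ 1 := by
    intro a b ha hb
    exact (Padic.nonarchimedean a b).trans (max_le ha hb)
  have h2 : ‖(2 : ℚ_[3])‖ ≤ 1 := by
    have := Padic.norm_int_le_one (p := 3) 2
    exact_mod_cast this
  have hn : ∀ a : ℚ_[3], ‖a‖ ≤ 1 → ‖-a‖ ≤ 1 := fun a ha => by rwa [norm_neg]
  rw [nu_le_iff]
  refine ⟨?_, ?_, ?_, ?_⟩
  · have : (x * y - y * x).re = 0 := by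
      simp only [QuaternionAlgebra.re_sub, QuaternionAlgebra.re_mul]; ring
    rw [this]; norm_num
  · have : (x * y - y * x).imI = 3 * (2 * (x.imK * y.imJ + -(x.imJ * y.imK))) := by
      simp only [QuaternionAlgebra.imI_sub, QuaternionAlgebra.imI_mul]; ring
    rw [this, norm_mul, norm_three]
    have h := hm _ _ h2 (hs _ _ (hm _ _ x4 y3) (hn _ (hm _ _ x3 y4)))
    have h0 := norm_nonneg (2 * (x.imK * y.imJ + -(x.imJ * y.imK)))
    rw [mul_pow]
    nlinarith
  · have : (x * y - y * x).imJ = 2 * (x.imK * y.imI + -(x.imI * y.imK)) := by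
      simp only [QuaternionAlgebra.imJ_sub, QuaternionAlgebra.imJ_mul]; ring
    rw [this]
    have h := hm _ _ h2 (hs _ _ (hm _ _ x4 y2) (hn _ (hm _ _ x2 y4)))
    have h0 := norm_nonneg (2 * (x.imK * y.imI + -(x.imI * y.imK)))
    have := pow_le_one₀ (n := 2) h0 h
    linarith
  · have : (x * y - y * x).imK = 2 * (x.imI * y.imJ + -(x.imJ * y.imI)) := by
      simp only [QuaternionAlgebra.imK_sub, QuaternionAlgebra.imK_mul]; ring
    rw [this]
    have h := hm _ _ h2 (hs _ _ (hm _ _ x2 y3) (hn _ (hm _ _ x3 y2)))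
    have h0 := norm_nonneg (2 * (x.imI * y.imJ + -(x.imJ * y.imI)))
    have := pow_le_one₀ (n := 2) h0 h
    linarith

/-- The group of elements of absolute value one. -/
def W1 : Subgroup Dˣ where
  carrier := {u | nu (u : D) = 1}
  one_mem' := by
    change nu ((1 : Dˣ) : D) = 1
    rw [Units.val_one, nu_one]
  mul_mem' := by
    intro a b ha hb
    change nu ((a * b : Dˣ) : D) = 1
    rw [Units.val_mul, nu_mul, show nu (a : D) = 1 from ha, show nu (b : D) = 1 from hb, one_mul]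
  inv_mem' := by
    intro a ha
    change nu ((a⁻¹ : Dˣ) : D) = 1
    rw [nu_inv, show nu (a : D) = 1 from ha, inv_one]

theorem nu_eq_one_of_close {x : D} {ε : ℝ} (hε : ε < 1) (h : nu (x - 1) ≤ ε) : nu x = 1 := by
  rw [← nu_one]
  apply nu_eq_of_sub_lt
  rw [nu_one]
  linarith

/-- The congruence subgroups. -/
def W (ε : ℝ) (h0 : 0 ≤ ε) (h1 : ε < 1) : Subgroup Dˣ where
  carrier := {u | nu ((u : D) - 1) ≤ ε}
  one_mem' := by
    change nu (((1 : Dˣ) : D) - 1) ≤ ε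
    rw [Units.val_one, sub_self, nu_zero]
    exact h0
  mul_mem' := by
    intro a b ha hb
    change nu (((a * b : Dˣ) : D) - 1) ≤ ε
    have e : ((a * b : Dˣ) : D) - 1 = ((a : D) - 1) * b + ((b : D) - 1) := by
      rw [Units.val_mul]; noncomm_ring
    rw [e]
    apply nu_add_le_of_le _ hb
    rw [nu_mul, nu_eq_one_of_close h1 hb, mul_one]
    exact ha
  inv_mem' := by
    intro a ha
    change nu (((a⁻¹ : Dˣ) : D) - 1) ≤ ε
    have e : ((a⁻¹ : Dˣ) : D) - 1 = -(((a⁻¹ : Dˣ) : D) * ((a : D) - 1)) := by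
      rw [mul_sub, Units.inv_mul]; noncomm_ring
    rw [e, nu_neg, nu_mul, nu_inv, nu_eq_one_of_close h1 ha, inv_one, one_mul]
    exact ha

theorem mem_W {ε : ℝ} {h0 : 0 ≤ ε} {h1 : ε < 1} {u : Dˣ} :
    u ∈ W ε h0 h1 ↔ nu ((u : D) - 1) ≤ ε := Iff.rfl

theorem eps_aux (m : ℕ) : (0 : ℝ) ≤ (1 / 3) ^ (2 ^ m) ∧ ((1 : ℝ) / 3) ^ (2 ^ m) < 1 :=
  ⟨by positivity, pow_lt_one₀ (by norm_num) (by norm_num) (by positivity)⟩

theorem derived_one_le : derivedSeries Dˣ 1 ≤ W1 := by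
  rw [derivedSeries_succ, derivedSeries_zero, Subgroup.commutator_le]
  intro x _ y _
  change nu ((⁅x, y⁆ : Dˣ) : D) = 1
  rw [commutatorElement_def, Units.val_mul, Units.val_mul, Units.val_mul, nu_mul, nu_mul, nu_mul,
    nu_inv, nu_inv]
  have hx := nu_pos x
  have hy := nu_pos y
  field_simp

theorem derived_le (m : ℕ) :
    derivedSeries Dˣ (m + 2) ≤ W ((1 / 3) ^ (2 ^ m)) (eps_aux m).1 (eps_aux m).2 := by
  induction m with
  | zero =>
    rw [derivedSeries_succ, Subgroup.commutator_le]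
    intro x hx y hy
    have hx1 : nu (x : D) = 1 := derived_one_le hx
    have hy1 : nu (y : D) = 1 := derived_one_le hy
    rw [mem_W, nu_commutator_sub_one, hx1, hy1]
    have := nu_comm_le hx1.le hy1.le
    simpa using this
  | succ m ih =>
    rw [show m + 1 + 2 = (m + 2) + 1 by ring, derivedSeries_succ, Subgroup.commutator_le]
    intro x hx y hy
    have hx1 := mem_W.mp (ih hx)
    have hy1 := mem_W.mp (ih hy)
    have hx2 := nu_eq_one_of_close (eps_aux m).2 hx1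
    have hy2 := nu_eq_one_of_close (eps_aux m).2 hy1
    rw [mem_W, nu_commutator_sub_one, hx2, hy2, inv_one, mul_one, mul_one]
    have e : (x : D) * y - (y : D) * x
        = ((x : D) - 1) * ((y : D) - 1) - ((y : D) - 1) * ((x : D) - 1) := by noncomm_ring
    have hpow : ((1 : ℝ) / 3) ^ (2 ^ (m + 1)) = (1 / 3) ^ (2 ^ m) * (1 / 3) ^ (2 ^ m) := by
      rw [← pow_add]; congr 1; ring
    rw [e, hpow]
    apply nu_sub_le_of_le
    · rw [nu_mul]
      exact mul_le_mul hx1 hy1 (nu_nonneg _) (eps_aux m).1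
    · rw [nu_mul]
      exact mul_le_mul hy1 hx1 (nu_nonneg _) (eps_aux m).1

theorem Gq_solvable (n : ℕ) : Group.IsSolvable (Gq n) := by
  rw [Group.isSolvable_def]
  refine ⟨(n + 1) + 2, ?_⟩
  have hsurj : Function.Surjective (QuotientGroup.mk' (U n)) := QuotientGroup.mk'_surjective _
  rw [← map_derivedSeries_eq hsurj, eq_bot_iff, Subgroup.map_le_iff_le_comap]
  intro u hu
  have h1 := mem_W.mp (derived_le (n + 1) hu)
  rw [Subgroup.mem_comap, Subgroup.mem_bot, QuotientGroup.mk'_apply, QuotientGroup.eq_one_iff]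
  refine ⟨1, ?_⟩
  have h2 := nu_eq_one_of_close (eps_aux (n + 1)).2 h1
  rw [h2, mul_one, QuaternionAlgebra.coe_one]
  refine h1.trans ?_
  unfold eps
  exact pow_le_pow_of_le_one (by norm_num) (by norm_num) (Nat.lt_two_pow_self).le

/-- The leading term of a commutator. -/
theorem leading_term {a b c : D} {x y : Dˣ} (hc : nu c = nu a * nu b)
    (hc0 : 0 < nu c) (ha1 : nu a < 1) (hb1 : nu b < 1)
    (habc : nu (a * b - b * a - c) < nu c)
    (hx : nu ((x : D) - 1 - a) < nu a) (hy : nu ((y : D) - 1 - b) < nu b) :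
    nu (((⁅x, y⁆ : Dˣ) : D) - 1 - c) < nu c := by
  have ha0 : 0 < nu a := lt_of_le_of_lt (nu_nonneg _) hx
  have hb0 : 0 < nu b := lt_of_le_of_lt (nu_nonneg _) hy
  have hxa : nu ((x : D) - 1) = nu a := nu_eq_of_sub_lt hx
  have hyb : nu ((y : D) - 1) = nu b := nu_eq_of_sub_lt hy
  have hx1 : nu (x : D) = 1 := nu_eq_one_of_close ha1 hxa.le
  have hy1 : nu (y : D) = 1 := nu_eq_one_of_close hb1 hyb.le
  -- remainders
  obtain ⟨r, hr⟩ : ∃ r : D, r = (x : D) - 1 - a := ⟨_, rfl⟩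
  obtain ⟨s, hs⟩ : ∃ s : D, s = (y : D) - 1 - b := ⟨_, rfl⟩
  rw [← hr] at hx
  rw [← hs] at hy
  have hX : (x : D) = 1 + a + r := by rw [hr]; abel
  have hY : (y : D) = 1 + b + s := by rw [hs]; abel
  -- the difference xy - yx - c
  have e1 : (x : D) * y - (y : D) * x - c
      = (a * b - b * a - c) + ((a * s - s * a) + ((r * b - b * r) + (r * s - s * r))) := by
    rw [hX, hY]; noncomm_ring
  have has : nu a * nu s < nu c := by rw [hc]; exact mul_lt_mul_of_pos_left hy ha0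
  have hrb : nu r * nu b < nu c := by rw [hc]; exact mul_lt_mul_of_pos_right hx hb0
  have hrs : nu r * nu s < nu c := by
    rw [hc]
    exact mul_lt_mul'' hx hy (nu_nonneg _) (nu_nonneg _)
  have h1 : nu ((x : D) * y - (y : D) * x - c) < nu c := by
    rw [e1]
    refine nu_add_lt_of_lt habc (nu_add_lt_of_lt ?_ (nu_add_lt_of_lt ?_ ?_))
    · refine nu_sub_lt_of_lt ?_ ?_
      · rw [nu_mul]; exact has
      · rw [nu_mul, mul_comm]; exact has
    · refine nu_sub_lt_of_lt ?_ ?_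
      · rw [nu_mul]; exact hrb
      · rw [nu_mul, mul_comm]; exact hrb
    · refine nu_sub_lt_of_lt ?_ ?_
      · rw [nu_mul]; exact hrs
      · rw [nu_mul, mul_comm]; exact hrs
  have h2 : nu ((x : D) * y - (y : D) * x) = nu c := nu_eq_of_sub_lt h1
  -- multiply by x⁻¹ y⁻¹
  obtain ⟨w, hw⟩ : ∃ w : D, w = ((x⁻¹ : Dˣ) : D) * ((y⁻¹ : Dˣ) : D) := ⟨_, rfl⟩
  have hyx : nu ((y : D) * x - 1) < 1 := by
    have : (y : D) * x - 1 = ((y : D) - 1) * x + ((x : D) - 1) := by noncomm_ring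
    rw [this]
    refine nu_add_lt_of_lt ?_ ?_
    · rw [nu_mul, hx1, hyb, mul_one]; exact hb1
    · rw [hxa]; exact ha1
  have hw1 : nu (w - 1) < 1 := by
    have e : w - 1 = -(w * ((y : D) * x - 1)) := by
      have : w * ((y : D) * x) = 1 := by
        rw [hw, mul_assoc, ← mul_assoc ((y⁻¹ : Dˣ) : D), Units.inv_mul, one_mul, Units.inv_mul]
      rw [mul_sub, this]; noncomm_ring
    have hnw : nu w = 1 := by
      rw [hw, nu_mul, nu_inv, nu_inv, hx1, hy1]; norm_num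
    rw [e, nu_neg, nu_mul, hnw, one_mul]
    exact hyx
  have e2 : ((⁅x, y⁆ : Dˣ) : D) - 1 - c
      = ((x : D) * y - (y : D) * x) * (w - 1) + ((x : D) * y - (y : D) * x - c) := by
    rw [commutator_sub_one, ← hw]; noncomm_ring
  rw [e2]
  refine nu_add_lt_of_lt ?_ h1
  rw [nu_mul, h2]
  exact mul_lt_of_lt_one_right hc0 hw1

end

end Pool.Agent.Helper85.SR
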