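import Mathlib
import Pool.Agent.Helper85.QuatSeries

set_option autoImplicit false

open scoped commutatorElement

namespace Pool.Agent.Helper85.SR

noncomputable section

/-- `3^k j` -/
def ea (k : ℕ) : D := ⟨0, 0, 3 ^ k, 0⟩

/-- `3^k ij` -/
def eb (k : ℕ) : D := ⟨0, 0, 0, 3 ^ k⟩

/-- `3^l i` -/
def ec (l : ℕ) : D := ⟨0, 3 ^ l, 0, 0⟩

theorem norm_three_pow (k : ℕ) : ‖(3 : ℚ_[3]) ^ k‖ = (1 / 3) ^ k := by
  rw [norm_pow, norm_three]

theorem nu_ea (k : ℕ) : nu (ea k) = (1 / 3) ^ (2 * k + 1) := by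
  have : nrm (ea k) = -(3 * (3 ^ k) ^ 2) := by simp only [nrm, ea]; ring
  rw [nu, this, norm_neg, norm_mul, norm_pow, norm_three_pow, norm_three]
  ring

theorem nu_eb (k : ℕ) : nu (eb k) = (1 / 3) ^ (2 * k + 1) := by
  have : nrm (eb k) = -(3 * (3 ^ k) ^ 2) := by simp only [nrm, eb]; ring
  rw [nu, this, norm_neg, norm_mul, norm_pow, norm_three_pow, norm_three]
  ring

theorem nu_ec (l : ℕ) : nu (ec l) = (1 / 3) ^ (2 * l) := by
  have : nrm (ec l) = (3 ^ l) ^ 2 := by simp only [nrm, ec]; ring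
  rw [nu, this, norm_pow, norm_three_pow]
  ring

theorem comm_cb (k l : ℕ) : ec l * eb k - eb k * ec l - ea (k + l) = -(((3 : ℚ_[3]) : D) * ea (k + l)) := by
  ext <;> simp only [ea, eb, ec, QuaternionAlgebra.re_sub, QuaternionAlgebra.imI_sub,
    QuaternionAlgebra.imJ_sub, QuaternionAlgebra.imK_sub, QuaternionAlgebra.re_neg,
    QuaternionAlgebra.imI_neg, QuaternionAlgebra.imJ_neg, QuaternionAlgebra.imK_neg,
    QuaternionAlgebra.re_mul, QuaternionAlgebra.imI_mul,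
    QuaternionAlgebra.imJ_mul, QuaternionAlgebra.imK_mul, QuaternionAlgebra.re_coe,
    QuaternionAlgebra.imI_coe, QuaternionAlgebra.imJ_coe,
    QuaternionAlgebra.imK_coe] <;> ring

theorem comm_ac (k l : ℕ) : ea k * ec l - ec l * ea k - eb (k + l) = -(((3 : ℚ_[3]) : D) * eb (k + l)) := by
  ext <;> simp only [ea, eb, ec, QuaternionAlgebra.re_sub, QuaternionAlgebra.imI_sub,
    QuaternionAlgebra.imJ_sub, QuaternionAlgebra.imK_sub, QuaternionAlgebra.re_neg,
    QuaternionAlgebra.imI_neg, QuaternionAlgebra.imJ_neg, QuaternionAlgebra.imK_neg,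
    QuaternionAlgebra.re_mul, QuaternionAlgebra.imI_mul,
    QuaternionAlgebra.imJ_mul, QuaternionAlgebra.imK_mul, QuaternionAlgebra.re_coe,
    QuaternionAlgebra.imI_coe, QuaternionAlgebra.imJ_coe,
    QuaternionAlgebra.imK_coe] <;> ring

theorem comm_ab (k : ℕ) :
    ea k * eb k - eb k * ea k - ec (2 * k + 1) = -(((3 : ℚ_[3]) : D) * ec (2 * k + 1)) := by
  ext <;> simp only [ea, eb, ec, QuaternionAlgebra.re_sub, QuaternionAlgebra.imI_sub,
    QuaternionAlgebra.imJ_sub, QuaternionAlgebra.imK_sub, QuaternionAlgebra.re_neg,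
    QuaternionAlgebra.imI_neg, QuaternionAlgebra.imJ_neg, QuaternionAlgebra.imK_neg,
    QuaternionAlgebra.re_mul, QuaternionAlgebra.imI_mul,
    QuaternionAlgebra.imJ_mul, QuaternionAlgebra.imK_mul, QuaternionAlgebra.re_coe,
    QuaternionAlgebra.imI_coe, QuaternionAlgebra.imJ_coe,
    QuaternionAlgebra.imK_coe] <;> ring

theorem nu_three_mul_lt {z : D} (hz : 0 < nu z) : nu (-(((3 : ℚ_[3]) : D) * z)) < nu z := by
  rw [nu_neg, nu_mul, nu_coe, norm_three]
  linarith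

theorem exists_elements (m : ℕ) :
    ∃ k l : ℕ, 1 ≤ l ∧ ∃ x ∈ derivedSeries Dˣ m, ∃ x' ∈ derivedSeries Dˣ m,
      ∃ y ∈ derivedSeries Dˣ m, nu ((x : D) - 1 - ea k) < nu (ea k) ∧
        nu ((x' : D) - 1 - eb k) < nu (eb k) ∧ nu ((y : D) - 1 - ec l) < nu (ec l) := by
  induction m with
  | zero =>
    have key : ∀ z : D, nu z < 1 → 0 < nu z →
        ∃ x ∈ derivedSeries Dˣ 0, nu ((x : D) - 1 - z) < nu z := by
      intro z hz hz0
      have hne : (1 : D) + z ≠ 0 := by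
        intro h
        have h1 : z = -1 := by
          rw [eq_neg_iff_add_eq_zero, add_comm]; exact h
        rw [h1, nu_neg, nu_one] at hz
        exact lt_irrefl _ hz
      obtain ⟨u, hu⟩ := exists_unit hne
      refine ⟨u, by simp [derivedSeries_zero], ?_⟩
      have : (u : D) - 1 - z = 0 := by rw [hu]; abel
      rw [this, nu_zero]
      exact hz0
    refine ⟨0, 1, le_rfl, ?_⟩
    obtain ⟨x, hx, hx'⟩ := key (ea 0) (by rw [nu_ea]; norm_num) (by rw [nu_ea]; norm_num)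
    obtain ⟨y, hy, hy'⟩ := key (eb 0) (by rw [nu_eb]; norm_num) (by rw [nu_eb]; norm_num)
    obtain ⟨z, hz, hz'⟩ := key (ec 1) (by rw [nu_ec]; norm_num) (by rw [nu_ec]; norm_num)
    exact ⟨x, hx, y, hy, z, hz, hx', hy', hz'⟩
  | succ m ih =>
    obtain ⟨k, l, hl, x, hx, x', hx', y, hy, h1, h2, h3⟩ := ih
    have hpos : ∀ n : ℕ, (0 : ℝ) < (1 / 3) ^ n := fun n => by positivity
    have hlt : ∀ n : ℕ, 1 ≤ n → ((1 : ℝ) / 3) ^ n < 1 := fun n hn =>
      pow_lt_one₀ (by norm_num) (by norm_num) (by omega)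
    have ha1 : nu (ea k) < 1 := by rw [nu_ea]; exact hlt _ (by omega)
    have hb1 : nu (eb k) < 1 := by rw [nu_eb]; exact hlt _ (by omega)
    have hc1 : nu (ec l) < 1 := by rw [nu_ec]; exact hlt _ (by omega)
    refine ⟨k + l, 2 * k + 1, by omega, ⁅y, x'⁆, ?_, ⁅x, y⁆, ?_, ⁅x, x'⁆, ?_, ?_, ?_, ?_⟩
    · rw [derivedSeries_succ]; exact Subgroup.commutator_mem_commutator hy hx'
    · rw [derivedSeries_succ]; exact Subgroup.commutator_mem_commutator hx hy
    · rw [derivedSeries_succ]; exact Subgroup.commutator_mem_commutator hx hx'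
    · have hpe : 0 < nu (ea (k + l)) := by rw [nu_ea]; exact hpos _
      refine leading_term ?_ hpe hc1 hb1 ?_ h3 h2
      · rw [nu_ea, nu_ec, nu_eb, ← pow_add]; congr 1; ring
      · rw [comm_cb]; exact nu_three_mul_lt hpe
    · have hpe : 0 < nu (eb (k + l)) := by rw [nu_eb]; exact hpos _
      refine leading_term ?_ hpe ha1 hc1 ?_ h1 h3
      · rw [nu_eb, nu_ec, nu_ea, ← pow_add]; congr 1; ring
      · rw [comm_ac]; exact nu_three_mul_lt hpe
    · have hpe : 0 < nu (ec (2 * k + 1)) := by rw [nu_ec]; exact hpos _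
      refine leading_term ?_ hpe ha1 hb1 ?_ h1 h2
      · rw [nu_ec, nu_ea, nu_eb, ← pow_add]; congr 1; ring
      · rw [comm_ab]; exact nu_three_mul_lt hpe

/-- The derived lengths of the quotient groups are unbounded. -/
theorem exists_derived_ne_bot (m : ℕ) : ∃ n : ℕ, derivedSeries (Gq n) m ≠ ⊥ := by
  obtain ⟨k, l, hl, x, hx, x', hx', y, hy, h1, h2, h3⟩ := exists_elements m
  refine ⟨2 * k + 1, ?_⟩
  intro hbot
  have hsurj : Function.Surjective (QuotientGroup.mk' (U (2 * k + 1))) :=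
    QuotientGroup.mk'_surjective _
  rw [← map_derivedSeries_eq hsurj, eq_bot_iff, Subgroup.map_le_iff_le_comap] at hbot
  have hxU := hbot hx
  rw [Subgroup.mem_comap, Subgroup.mem_bot, QuotientGroup.mk'_apply,
    QuotientGroup.eq_one_iff] at hxU
  obtain ⟨s, hs⟩ := hxU
  have ha1 : nu (ea k) < 1 := by
    rw [nu_ea]; exact pow_lt_one₀ (by norm_num) (by norm_num) (by omega)
  have hxa : nu ((x : D) - 1) = nu (ea k) := nu_eq_of_sub_lt h1
  have hx1 : nu (x : D) = 1 := nu_eq_one_of_close ha1 hxa.le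
  rw [hx1, mul_one] at hs
  have heps : eps (2 * k + 1) < nu (ea k) := by
    rw [nu_ea]; unfold eps
    have : (0 : ℝ) < (1 / 3) ^ (2 * k + 1) := by positivity
    rw [pow_succ]
    linarith
  have e : ((1 - s : ℚ_[3]) : D) + ea k = ((x : D) - s) - ((x : D) - 1 - ea k) := by
    rw [QuaternionAlgebra.coe_sub, QuaternionAlgebra.coe_one]; abel
  have h4 : nu (((1 - s : ℚ_[3]) : D) + ea k) < nu (ea k) := by
    rw [e]
    exact nu_sub_lt_of_lt (lt_of_le_of_lt hs heps) h1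
  have h5 := (nu_le_iff (x := ((1 - s : ℚ_[3]) : D) + ea k)
    (r := nu (((1 - s : ℚ_[3]) : D) + ea k))).mp le_rfl
  have h6 := h5.2.2.1
  have h7 : (((1 - s : ℚ_[3]) : D) + ea k).imJ = 3 ^ k := by
    rw [QuaternionAlgebra.imJ_add, QuaternionAlgebra.imJ_coe, zero_add]; rfl
  rw [h7, norm_three_pow] at h6
  rw [nu_ea] at h4
  have h8 : ((1 : ℝ) / 3) ^ (2 * k + 1) = ((1 / 3) ^ k) ^ 2 / 3 := by ring
  rw [h8] at h4
  linarith

end

end Pool.Agent.Helper85.SR
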