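import Mathlib
import Pool.Agent.Helper85.Gelfand

set_option autoImplicit false

open Module CategoryTheory MonoidalCategory

namespace Pool.Agent.Helper85.SR

section Schur

variable {Γ E : Type*} [Group Γ] [Fintype Γ]
  [AddCommGroup E] [Module ℂ E] [FiniteDimensional ℂ E]

theorem schur_of_norm_one (T : Representation ℂ Γ E)
    (hT : ∑ γ : Γ, T.character γ * T.character γ⁻¹ = Fintype.card Γ) (X : Module.End ℂ E) :
    ∃ c : ℂ, ∑ γ : Γ, T γ * X * T γ⁻¹ = c • 1 := by
  classical
  have hcard : (Nat.card Γ : ℂ) ≠ 0 := by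
    rw [Nat.card_eq_fintype_card]
    exact Nat.cast_ne_zero.mpr Fintype.card_ne_zero
  let _ : Invertible (Nat.card Γ : ℂ) := invertibleOfNonzero hcard
  have h1 := Representation.card_inv_mul_sum_char_mul_char_eq_finrank T T
  rw [hT, ← Nat.card_eq_fintype_card, inv_mul_cancel₀ hcard] at h1
  have h2 : finrank ℂ (Representation.IntertwiningMap T T) = 1 := by exact_mod_cast h1.symm
  -- the averaged operator as an intertwining map
  let Y : Representation.IntertwiningMap T T :=
    { toLinearMap := ∑ γ : Γ, T γ * X * T γ⁻¹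
      isIntertwining' := by
        intro g
        change (∑ γ : Γ, T γ * X * T γ⁻¹) * T g = T g * ∑ γ : Γ, T γ * X * T γ⁻¹
        rw [Finset.sum_mul, Finset.mul_sum]
        refine Fintype.sum_equiv (Equiv.mulLeft g⁻¹) _ _ fun γ => ?_
        have h3 : T g * T (g⁻¹ * γ) = T γ := by rw [← map_mul, mul_inv_cancel_left]
        have h4 : T (g⁻¹ * γ)⁻¹ = T γ⁻¹ * T g := by
          rw [← map_mul]; congr 1; group
        calc T γ * X * T γ⁻¹ * T g = T g * T (g⁻¹ * γ) * X * (T γ⁻¹ * T g) := by
              rw [h3, mul_assoc, mul_assoc]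
          _ = T g * (T (g⁻¹ * γ) * X * T (g⁻¹ * γ)⁻¹) := by
              rw [h4]; simp only [mul_assoc] }
  let I : Representation.IntertwiningMap T T :=
    { toLinearMap := 1
      isIntertwining' := by
        intro g
        change 1 * T g = T g * 1
        rw [one_mul, mul_one] }
  have hnt : Nontrivial E := by
    by_contra hn
    rw [not_nontrivial_iff_subsingleton] at hn
    have : finrank ℂ (Representation.IntertwiningMap T T) = 0 := by
      have : Subsingleton (Representation.IntertwiningMap T T) := by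
        refine ⟨fun a b => ?_⟩
        apply Representation.IntertwiningMap.ext
        exact Subsingleton.elim _ _
      exact finrank_zero_of_subsingleton
    omega
  have hI : I ≠ 0 := by
    intro h
    have h3 : (1 : Module.End ℂ E) = 0 := congrArg (fun f => f.toLinearMap) h
    exact one_ne_zero h3
  obtain ⟨c, hc⟩ := (finrank_eq_one_iff_of_nonzero' I hI).mp h2 Y
  refine ⟨c, ?_⟩
  exact (congrArg (fun f => f.toLinearMap) hc).symm

end Schur

section Triple

variable {G : Type} [Group G] [Fintype G]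

/-- The representation of `G × G × G` on `Hom(U, V ⊗ W)`. -/
noncomputable def tripleRep (U V W : FDRep ℂ G) :
    Representation ℂ (G × G × G) (U →ₗ[ℂ] TensorProduct ℂ V W) :=
  Representation.linHom (U.ρ.comp (MonoidHom.fst G (G × G)))
    (Representation.tprod (V.ρ.comp ((MonoidHom.fst G G).comp (MonoidHom.snd G (G × G))))
      (W.ρ.comp ((MonoidHom.snd G G).comp (MonoidHom.snd G (G × G)))))

theorem tripleRep_char (U V W : FDRep ℂ G) (g : G × G × G) :
    (tripleRep U V W).character g
      = U.character g.1⁻¹ * (V.character g.2.1 * W.character g.2.2) := by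
  rw [tripleRep, Representation.char_linHom, Representation.char_tensor]
  rfl

theorem tripleRep_norm (U V W : FDRep ℂ G) [Simple U] [Simple V] [Simple W] :
    ∑ γ : G × G × G, (tripleRep U V W).character γ * (tripleRep U V W).character γ⁻¹
      = Fintype.card (G × G × G) := by
  have hU := (FDRep.simple_iff_char_is_norm_one U).mp inferInstance
  have hV := (FDRep.simple_iff_char_is_norm_one V).mp inferInstance
  have hW := (FDRep.simple_iff_char_is_norm_one W).mp inferInstance
  simp_rw [tripleRep_char]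
  rw [Fintype.sum_prod_type]
  simp_rw [Fintype.sum_prod_type]
  have : ∀ a b c : G, U.character a⁻¹ * (V.character b * W.character c) *
      (U.character ((a, b, c) : G × G × G)⁻¹.1⁻¹ *
        (V.character ((a, b, c) : G × G × G)⁻¹.2.1 * W.character ((a, b, c) : G × G × G)⁻¹.2.2))
      = (U.character a * U.character a⁻¹) * ((V.character b * V.character b⁻¹) *
        (W.character c * W.character c⁻¹)) := by
    intro a b c
    simp only [Prod.fst_inv, Prod.snd_inv, inv_inv]
    ring
  simp_rw [this]
  simp_rw [← Finset.mul_sum, ← Finset.sum_mul]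
  rw [hU, hV, hW]
  simp only [Nat.card_eq_fintype_card, Fintype.card_prod, Nat.cast_mul]

/-- Simultaneous inversion of pairs implies multiplicity-freeness of tensor products. -/
theorem finrank_hom_tensor_le_one
    (hG : ∀ x y : G, ∃ g : G, g * x * g⁻¹ = x⁻¹ ∧ g * y * g⁻¹ = y⁻¹)
    (U V W : FDRep ℂ G) (hU : Simple U) (hV : Simple V) (hW : Simple W) :
    Module.finrank ℂ (U ⟶ V ⊗ W) ≤ 1 := by
  let δ : G →* G × G × G := (MonoidHom.id G).prod ((MonoidHom.id G).prod (MonoidHom.id G))
  have key := gelfand (tripleRep U V W) δ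
    (schur_of_norm_one _ (tripleRep_norm U V W)) ?_
  · have he := (Representation.linHom.invariantsEquivFDRepHom U (V ⊗ W)).finrank_eq
    rw [← he]
    exact key
  · rintro ⟨a, b, c⟩
    obtain ⟨g, hg1, hg2⟩ := hG (b * a⁻¹) (c * a⁻¹)
    refine ⟨a⁻¹ * g, a⁻¹ * g⁻¹, ?_⟩
    simp only [δ, MonoidHom.prod_apply, MonoidHom.id_apply, Prod.inv_mk, Prod.mk_mul_mk]
    refine Prod.ext ?_ (Prod.ext ?_ ?_)
    · change a⁻¹ = a⁻¹ * g * a * (a⁻¹ * g⁻¹)
      group
    · change b⁻¹ = a⁻¹ * g * b * (a⁻¹ * g⁻¹)
      have : a⁻¹ * g * b * (a⁻¹ * g⁻¹) = a⁻¹ * (g * (b * a⁻¹) * g⁻¹) := by group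
      rw [this, hg1]
      group
    · change c⁻¹ = a⁻¹ * g * c * (a⁻¹ * g⁻¹)
      have : a⁻¹ * g * c * (a⁻¹ * g⁻¹) = a⁻¹ * (g * (c * a⁻¹) * g⁻¹) := by group
      rw [this, hg2]
      group

end Triple

end Pool.Agent.Helper85.SR
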